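import Mathlib

set_option autoImplicit false

namespace Pool.Agent.Results.MP_c05c30_lc.Counter

open FirstOrder Language MonoidAlgebra

/-- The language of semigroups: one binary operation. -/
inductive MulFn : ℕ → Type
  | mul : MulFn 2

def sgL : Language := ⟨MulFn, fun _ => Empty⟩

@[reducible] def sgS (S : Type) [Mul S] : sgL.Structure S where
  funMap := fun {n} f => match n, f with
    | _, .mul => fun x => x 0 * x 1
  RelMap := fun r => r.elim

/-- The language of `P`-algebras: the ring operations and one scalar multiplication per `c : P`. -/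
inductive AlgFn (P : Type) : ℕ → Type
  | add : AlgFn P 2
  | mul : AlgFn P 2
  | neg : AlgFn P 1
  | zero : AlgFn P 0
  | one : AlgFn P 0
  | smul (c : P) : AlgFn P 1

def algL (P : Type) : Language := ⟨AlgFn P, fun _ => Empty⟩

@[reducible] def algS (P A : Type) [Field P] [Ring A] [Algebra P A] : (algL P).Structure A where
  funMap := fun {n} f => match n, f with
    | _, .add => fun x => x 0 + x 1
    | _, .mul => fun x => x 0 * x 1
    | _, .neg => fun x => -x 0
    | _, .zero => fun _ => 0
    | _, .one => fun _ => 1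
    | _, .smul c => fun x => c • x 0
  RelMap := fun r => r.elim

/-- The tuples `a` and `b` satisfy the same first-order formulas. -/
def SameType (L : FirstOrder.Language.{0, 0}) (M : Type) (s : L.Structure M) {n : ℕ}
    (a b : Fin n → M) : Prop :=
  ∀ φ : L.Formula (Fin n), φ.Realize a ↔ φ.Realize b

/-- Logical homogeneity: equal types iff conjugate under an automorphism. -/
def LogHom (L : FirstOrder.Language.{0, 0}) (M : Type) (s : L.Structure M) : Prop :=
  ∀ (n : ℕ) (a b : Fin n → M), SameType L M s a b ↔ ∃ σ : M ≃[L] M, b = σ ∘ a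

inductive Sg (A : Type) : Type
  | e : Sg A
  | a (x : A) : Sg A
  | b (y : ℝ) : Sg A

variable {A : Type}

def Sg.mul : Sg A → Sg A → Sg A
  | .e, t => t
  | .a _, .b _ => .b 0
  | .a x, _ => .a x
  | .b y, _ => .b y

instance : Monoid (Sg A) where
  mul := Sg.mul
  one := .e
  one_mul _ := rfl
  mul_one s := by cases s <;> rfl
  mul_assoc s t u := by cases s <;> cases t <;> cases u <;> rfl

@[simp] lemma e_mul (t : Sg A) : Sg.e * t = t := rfl
@[simp] lemma mul_e (t : Sg A) : t * Sg.e = t := mul_one t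
@[simp] lemma b_mul (y : ℝ) (t : Sg A) : Sg.b y * t = .b y := rfl
@[simp] lemma a_mul_a (x y : A) : Sg.a x * Sg.a y = .a x := rfl
@[simp] lemma a_mul_b (x : A) (y : ℝ) : Sg.a x * Sg.b y = .b 0 := rfl

open Classical in
noncomputable def cls : Sg A → Fin 4
  | .e => 0
  | .a _ => 1
  | .b y => if y = 0 then 2 else 3

lemma cls0 {s : Sg A} : cls s = 0 ↔ s = .e := by
  cases s <;> simp [cls]
  split_ifs <;> simp

lemma cls1 {s : Sg A} : cls s = 1 ↔ ∃ x, s = .a x := by
  cases s <;> simp [cls]
  split_ifs <;> simp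

lemma cls2 {s : Sg A} : cls s = 2 ↔ s = .b 0 := by
  cases s <;> simp [cls]

lemma cls23 {s : Sg A} : (cls s = 2 ∨ cls s = 3) ↔ ∃ y, s = .b y := by
  cases s <;> simp [cls]
  tauto

def aut (σ : Equiv.Perm (Sg A)) (h : ∀ s, cls (σ s) = cls s) : Sg A ≃* Sg A where
  toEquiv := σ
  map_mul' s t := by
    have he : σ .e = .e := cls0.1 (h _)
    have hb : σ (.b 0) = .b 0 := cls2.1 ((h _).trans (cls2.2 rfl))
    have ha : ∀ x, ∃ x', σ (.a x) = .a x' := fun x => cls1.1 (h _)
    have hb' : ∀ y, ∃ y', σ (.b y) = .b y' := fun y => cls23.1 (by rw [h]; exact cls23.2 ⟨y, rfl⟩)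
    change σ (s * t) = σ s * σ t
    cases s with
    | e => simp [he]
    | b y => obtain ⟨y', hy⟩ := hb' y; simp [hy]
    | a x =>
      obtain ⟨x', hx⟩ := ha x
      cases t with
      | e => simp [he]
      | a z => obtain ⟨z', hz⟩ := ha z; simp [hx, hz]
      | b y => obtain ⟨y', hy⟩ := hb' y; simp [hx, hy, hb]

lemma swap_cls {X C : Type} [DecidableEq X] (c : X → C) {p q : X} (h : c p = c q) (s : X) :
    c (Equiv.swap p q s) = c s := by
  rw [Equiv.swap_apply_def]
  split_ifs with h1 h2 <;> simp [*]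

lemma ext_perm {X C ι : Type} (c : X → C) (a b : ι → X) (h1 : ∀ i j, a i = a j ↔ b i = b j)
    (h2 : ∀ i, c (a i) = c (b i)) (s : Finset ι) :
    ∃ σ : Equiv.Perm X, (∀ x, c (σ x) = c x) ∧ ∀ i ∈ s, σ (a i) = b i := by
  classical
  induction s using Finset.induction_on with
  | empty => exact ⟨1, fun _ => rfl, by simp⟩
  | insert k s _ ih =>
    obtain ⟨σ, hc, hσ⟩ := ih
    refine ⟨Equiv.swap (σ (a k)) (b k) * σ, fun x => ?_, fun i hi => ?_⟩
    · rw [Equiv.Perm.mul_apply, swap_cls c ((hc _).trans (h2 k)), hc]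
    · rw [Equiv.Perm.mul_apply]
      by_cases hik : a i = a k
      · rw [hik, Equiv.swap_apply_left, (h1 _ _).1 hik]
      · have hi' : i ∈ s := (Finset.mem_insert.1 hi).resolve_left fun h => hik (h ▸ rfl)
        rw [Equiv.swap_apply_of_ne_of_ne (fun h => hik (σ.injective h))
          (by rw [hσ i hi']; exact fun h => hik ((h1 _ _).2 h)), hσ i hi']

def tm {α : Type} (s t : sgL.Term α) : sgL.Term α := Term.func MulFn.mul ![s, t]

lemma cls_iff (s : Sg A) [Nonempty A] : (cls s = 0 ↔ ∀ y, s * y = y) ∧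
    (cls s = 2 ∨ cls s = 3 ↔ ∀ y, s * y = s) ∧
    (cls s = 2 ↔ ∃ y, y * s = s ∧ y ≠ s ∧ ∃ z, y * z ≠ z) := by
  obtain ⟨x0⟩ := ‹Nonempty A›
  refine ⟨?_, ?_, ?_⟩
  · rw [cls0]
    refine ⟨fun h y => by simp [h], fun h => by simpa using h .e⟩
  · rw [cls23]
    refine ⟨fun ⟨y, h⟩ z => by simp [h], fun h => ?_⟩
    have := h (.b 0)
    clear h
    cases s <;> simp_all
  · rw [cls2]
    refine ⟨fun h => ⟨.a x0, by simp [h], by simp [h], .e, by simp⟩, ?_⟩
    rintro ⟨y, h1, h2, z, h3⟩
    cases s <;> cases y <;> simp_all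

lemma logHom_sg [Nonempty A] : LogHom sgL (Sg A) (sgS (Sg A)) := by
  let _ := sgS (Sg A)
  have hm : ∀ {α : Type} (v : α → Sg A) (s t : sgL.Term α),
      (tm s t).realize v = s.realize v * t.realize v := fun v s t => rfl
  intro n a b
  refine ⟨fun h => ?_, fun ⟨σ, hσ⟩ φ => by rw [hσ, StrongHomClass.realize_formula σ]⟩
  obtain ⟨σ, hc, hσ⟩ := ext_perm cls a b (fun i j => by
    simpa using h (Term.equal (.var i) (.var j))) (fun i => by
    have h0 := h (∀' (tm (.var (.inl i)) &0 =' &0))
    have h1 := h (∀' (tm (.var (.inl i)) &0 =' .var (.inl i)))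
    have h2 := h (∃' ((tm &0 (.var (.inl i)) =' .var (.inl i)) ⊓ ∼(&0 =' .var (.inl i)) ⊓
      ∃' ∼(tm &0 &1 =' &1)))
    simp [Formula.Realize, hm, Fin.snoc, and_assoc] at h0 h1 h2
    have ka := cls_iff (a i)
    have kb := cls_iff (b i)
    simp only [ne_eq] at ka kb
    rw [← ka.1, ← kb.1] at h0
    rw [← ka.2.1, ← kb.2.1] at h1
    rw [← ka.2.2, ← kb.2.2] at h2
    revert h0 h1 h2
    generalize cls (a i) = p
    generalize cls (b i) = q
    revert p q
    decide) Finset.univ
  refine ⟨{ toEquiv := σ, map_fun' := ?_, map_rel' := fun r => r.elim }, ?_⟩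
  · rintro _ ⟨⟩ x
    exact (aut σ hc).map_mul _ _
  · funext i
    exact (hσ i (by simp)).symm

lemma logHom_two :
    LogHom FirstOrder.Language.ring (ZMod 2) (Ring.compatibleRingOfRing (ZMod 2)).toStructure := by
  let _ := Ring.compatibleRingOfRing (ZMod 2)
  intro n a b
  refine ⟨fun h => ⟨.refl _ _, funext fun i => ?_⟩,
    fun ⟨σ, hσ⟩ φ => by rw [hσ, StrongHomClass.realize_formula σ]⟩
  have := h (Term.equal (.var i) 0)
  simp at this
  change b i = a i
  revert this
  generalize a i = p
  generalize b i = q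
  revert p q
  decide

def ι : Sg ℕ →* Sg ℝ where
  toFun s := match s with
    | .e => .e
    | .a x => .a x
    | .b y => .b y
  map_one' := rfl
  map_mul' s t := by cases s <;> cases t <;> rfl

lemma ι_inj : Function.Injective ι := by
  intro s t h
  cases s <;> cases t <;> simp_all [ι]

lemma push (F : Finset (Sg ℝ)) (hF : ∀ s ∈ F, s ∈ Set.range ι) (G : Finset (Sg ℝ)) :
    ∃ σ : Equiv.Perm (Sg ℝ), (∀ x, cls (σ x) = cls x) ∧ (∀ s ∈ F, σ s = s) ∧
      ∀ s ∈ G, σ s ∈ Set.range ι := by
  classical
  induction G using Finset.induction_on with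
  | empty => exact ⟨1, fun _ => rfl, by simp, by simp⟩
  | insert g G _ ih =>
    obtain ⟨σ, hc, h1, h2⟩ := ih
    by_cases hg : σ g ∈ Set.range ι
    · exact ⟨σ, hc, h1, Finset.forall_mem_insert .. |>.2 ⟨hg, h2⟩⟩
    obtain ⟨k, hk⟩ : ∃ k : ℕ, ι (.a k) ∉ F ∪ G.image σ := by
      by_contra hcon
      push Not at hcon
      exact Set.infinite_of_injective_forall_mem (f := fun k : ℕ => ι (.a k))
        (s := ((F ∪ G.image σ : Finset _) : Set (Sg ℝ)))
        (fun k l h => by simpa using ι_inj h) hcon (Finset.finite_toSet _)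
    have hcl : cls (σ g) = cls (ι (.a k)) := by
      cases hs : σ g with
      | e => exact absurd ⟨.e, hs.symm⟩ hg
      | a x => rfl
      | b y => exact absurd ⟨.b y, hs.symm⟩ hg
    refine ⟨Equiv.swap (σ g) (ι (.a k)) * σ, fun x => ?_, fun s hs => ?_, fun s hs => ?_⟩
    · rw [Equiv.Perm.mul_apply, swap_cls cls hcl, hc]
    · rw [Equiv.Perm.mul_apply, h1 s hs, Equiv.swap_apply_of_ne_of_ne]
      · exact fun h => hg (h ▸ hF s hs)
      · exact fun h => hk (by simp [← h, hs])
    · rw [Equiv.Perm.mul_apply]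
      rcases Finset.mem_insert.1 hs with rfl | hs
      · rw [Equiv.swap_apply_left]
        exact ⟨_, rfl⟩
      · rw [Equiv.swap_apply_of_ne_of_ne]
        · exact h2 s hs
        · exact fun h => hg (h ▸ h2 s hs)
        · exact fun h => hk (by rw [← h]; simp [hs])

variable (P : Type) [Field P]

def toL {M N : Type} [Ring M] [Ring N] [Algebra P M] [Algebra P N] (f : M →ₐ[P] N)
    (hf : Function.Injective f) : @Language.Embedding (algL P) M N (algS P M) (algS P N) :=
  letI := algS P M
  letI := algS P N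
  { toFun := f
    inj' := hf
    map_fun' := by
      rintro _ ⟨⟩ x
      exacts [map_add f _ _, map_mul f _ _, map_neg f _, map_zero f, map_one f, map_smul f _ _]
    map_rel' := fun r => r.elim }

def toE {M : Type} [Ring M] [Algebra P M] (f : M ≃ₐ[P] M) :
    @Language.Equiv (algL P) M M (algS P M) (algS P M) :=
  letI := algS P M
  { toEquiv := f.toEquiv
    map_fun' := by
      rintro _ ⟨⟩ x
      exacts [map_add f _ _, map_mul f _ _, map_neg f _, map_zero f, map_one f, map_smul f _ _]
    map_rel' := fun r => r.elim }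

noncomputable def sw : Sg ℝ →* P[Sg ℝ] where
  toFun s := match s with
    | .e => 1
    | .a x => single (.b x) 1 + single (.a 0) 1 - single (.b 0) 1
    | .b y => single (.a y) 1 - single (.b 0) 1
  map_one' := rfl
  map_mul' s t := by
    cases s <;> cases t <;>
      simp [mul_add, add_mul, mul_sub, sub_mul, single_mul_single]
    abel

noncomputable def swE : P[Sg ℝ] ≃ₐ[P] P[Sg ℝ] :=
  have h : (lift P _ _ (sw P)).comp (lift P _ _ (sw P)) = AlgHom.id P P[Sg ℝ] := by
    apply algHom_ext
    · intro s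
      cases s with
      | e => exact (map_one _).trans rfl
      | a x => simp [sw]; abel
      | b y => simp [sw]
    · ext
  AlgEquiv.ofAlgHom _ _ h h

lemma elem {n : ℕ} (φ : (algL P).Formula (Fin n)) (x : Fin n → P[Sg ℕ]) :
    @Formula.Realize _ _ (algS P _) _ φ (mapDomainAlgHom P P ι ∘ x) ↔
      @Formula.Realize _ _ (algS P _) _ φ x := by
  classical
  let _ := algS P P[Sg ℕ]
  let _ := algS P P[Sg ℝ]
  refine (toL P (mapDomainAlgHom P P ι) (mapDomain_injective ι_inj)).isElementary_of_exists
    (fun n φ x w hw => ?_) φ x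
  obtain ⟨σ, hc, h1, h2⟩ := push (Finset.univ.biUnion fun i => (x i).coeff.support.image ι)
    (by
      simp only [Finset.mem_biUnion, Finset.mem_image]
      rintro _ ⟨_, _, s, _, rfl⟩
      exact ⟨s, rfl⟩) w.coeff.support
  let τ := domCongr P P (aut σ hc)
  have hτ : ∀ z, τ z = mapDomain σ z := fun z => by
    induction z using induction_linear with
    | zero => simp
    | add a b ha hb => rw [map_add, mapDomain_add, ha, hb]
    | single a b => simp [τ]; rfl
  obtain ⟨b, hb⟩ : ∃ b, mapDomain ι b = τ w := by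
    obtain ⟨c, hc⟩ : (τ w).coeff ∈ Set.range (Finsupp.mapDomain (M := P) ι) := by
      rw [Finsupp.mem_range_mapDomain_iff _ ι_inj]
      intro s hs
      by_contra h0
      have : s ∈ (τ w).coeff.support := by simpa using h0
      rw [hτ] at this
      obtain ⟨t, ht, rfl⟩ := Finset.mem_image.1 (Finsupp.mapDomain_support this)
      exact hs (h2 t ht)
    exact ⟨ofCoeff c, by ext1; exact hc⟩
  refine ⟨b, ?_⟩
  rw [← StrongHomClass.realize_boundedFormula (toE P τ)] at hw
  refine (congrArg₂ φ.Realize (funext fun i => i.elim) (funext fun i => ?_)).mpr hw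
  refine Fin.lastCases ?_ (fun i => ?_) i
  · simp only [Fin.snoc_last, Function.comp]
    exact hb
  · simp only [Fin.snoc_castSucc, Function.comp]
    change mapDomain ι (x i) = τ (mapDomain ι (x i))
    rw [hτ]
    ext1
    change _ = Finsupp.mapDomain σ (Finsupp.mapDomain ι (x i).coeff)
    rw [← Finsupp.mapDomain_comp]
    exact Finsupp.mapDomain_congr fun s hs => (h1 _ (by
      simp only [Finset.mem_biUnion, Finset.mem_image]
      exact ⟨i, by simp, s, hs, rfl⟩)).symm

theorem result : ∃ (S : Type) (_ : Monoid S), LogHom sgL S (sgS S) ∧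
    LogHom FirstOrder.Language.ring (ZMod 2) (Ring.compatibleRingOfRing (ZMod 2)).toStructure ∧
    ∀ (P : Type) [Field P], ∃ u v : MonoidAlgebra P S,
      SameType (algL P) (MonoidAlgebra P S) (algS P (MonoidAlgebra P S)) ![u] ![v] ∧
      ∀ σ : MonoidAlgebra P S ≃ₗ[P] MonoidAlgebra P S,
        (∀ x y, σ (x * y) = σ x * σ y) → σ u ≠ v := by
  refine ⟨Sg ℕ, inferInstance, logHom_sg, logHom_two, fun P _ =>
    ⟨single (.a 0) 1 - single (.b 0) 1, single (.b 0) 1, fun φ => ?_, fun σ hσ h => ?_⟩⟩
  · let _ := algS P P[Sg ℝ]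
    rw [← elem, ← elem, ← StrongHomClass.realize_formula (toE P (swE P))]
    have : swE P (mapDomainAlgHom P P ι (single (.a 0) 1 - single (.b 0) 1)) =
        mapDomainAlgHom P P ι (single (.b 0) 1) := by
      rw [map_sub]
      simp [swE, sw, ι]
    refine iff_of_eq (congrArg _ (funext fun i => ?_))
    fin_cases i
    exact this
  · set u : P[Sg ℕ] := single (.a 0) 1 - single (.b 0) 1 with hu
    let W := Submodule.span P (Set.range fun k : ℕ => (single (.a k) 1 - single (.b 0) 1 : P[Sg ℕ]))
    have hW : ∀ w, w * u ∈ W := fun w => by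
      induction w using induction_linear with
      | zero => simp
      | add a b ha hb => rw [add_mul]; exact W.add_mem ha hb
      | single s c =>
        have : single s c = c • (single s 1 : P[Sg ℕ]) := by simp
        rw [this, smul_mul_assoc]
        refine W.smul_mem c ?_
        cases s with
        | e => exact Submodule.subset_span ⟨0, by simp [hu, mul_sub, single_mul_single]⟩
        | a x => exact Submodule.subset_span ⟨x, by simp [hu, mul_sub, single_mul_single]⟩
        | b y => simp [hu, mul_sub, single_mul_single]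
    have hm : ∀ y : ℝ, σ.symm (single (.b y) 1) ∈ W := fun y => by
      convert hW (σ.symm (single (.b y) 1)) using 1
      apply σ.injective
      simp [hσ, h, single_mul_single]
    have hli : LinearIndependent P (fun y : ℝ => (⟨_, hm y⟩ : W)) := by
      apply LinearIndependent.of_comp (σ.toLinearMap ∘ₗ W.subtype)
      have := (MonoidAlgebra.basis (Sg ℕ) P).linearIndependent.comp Sg.b
        (fun _ _ h => by simpa using h)
      convert this using 1
      funext y
      simp
    have h1 := hli.cardinal_le_rank.trans ((rank_span_le _).trans Cardinal.mk_range_le)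
    rw [Cardinal.mk_real, Cardinal.mk_nat] at h1
    exact absurd h1 Cardinal.aleph0_lt_continuum.not_ge

end Pool.Agent.Results.MP_c05c30_lc.Counter
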